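import Pool.Agent.Lib.MP_0c2883_lc.All.Final

/-!
# Primitivity of compressed words in free groups of finite rank is decidable in polynomial time

A straight-line program over the letters `x₀, x₀⁻¹, …, x_{r-1}, x_{r-1}⁻¹` is a list of rules; the
rule number `i` (counted from `0`) is a letter, or a pair `(j, k)`, which stands for the
concatenation of the words of the rules `j` and `k`. The word of the program is the word of its last
rule, and its length can be exponential in the number of rules. We prove that, for every rank `r`, a
Turing machine decides in time polynomial in the number of rules whether the element of the free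
group `F_r` given by this word is primitive, that is, belongs to a basis of `F_r`.
-/

set_option autoImplicit false

namespace Pool.Agent.Results.MP_0c2883_lc.CompressedPrimitivityAllRanks

open Pool.Agent.Lib.MP_0c2883_lc.All Pool.Agent.Lib.PolyTime

/-- The program is nonempty and every rule refers to earlier rules only. -/
def WellFormed {r : ℕ} (W : List (SRule r)) : Prop :=
  W ≠ [] ∧ ∀ i j k : ℕ, W[i]? = some (Sum.inr (j, k)) → j < i ∧ k < i

/-- The element belongs to some basis of the free group `F_r`. -/
def IsPrimitive {r : ℕ} (w : FreeGroup (Fin r)) : Prop :=
  ∃ (ι : Type) (b : FreeGroupBasis ι (FreeGroup (Fin r))) (i : ι), b i = w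

theorem code_length_le {r : ℕ} (W : List (SRule r)) (hW : WellFormed W) :
    (code W).length ≤ (2 * r + 20) * (W.length + 1) ^ 2 := by
  have h : ∀ t ∈ W, size t ≤ 4 * W.length + (2 * r + 12) := by
    intro t ht
    obtain ⟨i, hi, h⟩ := List.mem_iff_getElem.1 ht
    have hi' : W[i]? = some t := by rw [List.getElem?_eq_getElem hi, h]
    rcases t with x | ⟨j, k⟩
    · rw [size_inl]
      have := size_letter_le x
      omega
    · have := hW.2 i j k hi'
      rw [size_inr, size_prod, size_nat, size_nat]
      simp only
      omega
  have h2 := size_list_le W h
  rw [length_code]
  refine h2.trans ?_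
  nlinarith [Nat.zero_le W.length, Nat.zero_le r, Nat.zero_le (r * W.length),
    Nat.zero_le (r * W.length ^ 2)]

/-- **Primitivity of compressed words in `F_r` is decidable in polynomial time.** -/
theorem result (r : ℕ) :
    ∃ f : List (SRule r) → Bool,
      Nonempty (Turing.TM2ComputableInPolyTime (code : List (SRule r) → List Bool)
        (code : Bool → List Bool) f) ∧
      (∀ W : List (SRule r), f W = true ↔ IsPrimitive (FreeGroup.mk (eval W))) ∧
      Function.Injective (code : List (SRule r) → List Bool) ∧
      Function.Injective (code : Bool → List Bool) ∧
      ∀ W : List (SRule r), WellFormed W →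
        (code W).length ≤ (2 * r + 20) * (W.length + 1) ^ 2 := by
  obtain ⟨f, hf, h⟩ := mainStmt r
  exact ⟨f, hf.computable, h, code_injective _, code_injective _, code_length_le⟩

end Pool.Agent.Results.MP_0c2883_lc.CompressedPrimitivityAllRanks
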